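import Pool.Agent.helper68.SF.SpecW

/-! SCH: sign changes of the forms `ip u v` along a segment (proved without hypotheses). -/

namespace SF

theorem SCH_id (u v : ℤ × ℤ) (x y : ℝ) :
    ip u u x y * ip v v x y = ip u v x y ^ 2 + (dt u v : ℝ) ^ 2 * y ^ 2 := by
  unfold ip dt
  push_cast
  ring

theorem SCH_nonneg (u : ℤ × ℤ) (x y : ℝ) : 0 ≤ ip u u x y := by
  unfold ip
  have h1 : 0 ≤ ((u.1 : ℝ) * x + u.2) * (u.1 * x + u.2) := mul_self_nonneg _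
  have h2 : 0 ≤ (u.1 : ℝ) * u.1 * y ^ 2 := by
    have := mul_self_nonneg (u.1 : ℝ)
    positivity
  linarith

theorem SCH_cmp (T : ℝ) (hT : 0 < T) (u : ℤ × ℤ) (x y a b : ℝ) (h : Bx T x y) (h' : Bx T a b) :
    ip u u x y ≤ (2 + 9 * T ^ 4) * ip u u a b := by
  obtain ⟨hx, hy1, hy2⟩ := h
  obtain ⟨ha, hb1, hb2⟩ := h'
  have hT1 : 0 < 1 / T := by positivity
  have hb0 : 0 < b := lt_of_lt_of_le hT1 hb1
  have hy0 : 0 < y := lt_of_lt_of_le hT1 hy1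
  have hbT : 1 ≤ T * b := by
    rw [div_le_iff₀ hT] at hb1
    linarith
  have hbT2 : 1 ≤ T ^ 2 * b ^ 2 := by
    have : 1 ≤ (T * b) ^ 2 := one_le_pow₀ hbT
    linarith [mul_pow T b 2]
  have hxa : (x - a) ^ 2 ≤ 4 * T ^ 2 := by
    have h1 := abs_le.1 hx
    have h2 := abs_le.1 ha
    nlinarith
  have hyy : y ^ 2 ≤ T ^ 2 := by nlinarith
  unfold ip
  set p : ℝ := (u.1 : ℝ) with hp
  set q : ℝ := (u.2 : ℝ) with hq
  have hp2 : 0 ≤ p ^ 2 := sq_nonneg p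
  have e1 : (p * x + q) * (p * x + q) ≤ 2 * (p * a + q) ^ 2 + 2 * (p ^ 2 * (x - a) ^ 2) := by
    nlinarith [sq_nonneg ((p * a + q) - p * (x - a))]
  have e2 : p ^ 2 * (x - a) ^ 2 ≤ p ^ 2 * (4 * T ^ 2) := mul_le_mul_of_nonneg_left hxa hp2
  have e3 : p ^ 2 * y ^ 2 ≤ p ^ 2 * T ^ 2 := mul_le_mul_of_nonneg_left hyy hp2
  have e4 : p ^ 2 * (9 * T ^ 2) ≤ p ^ 2 * (9 * T ^ 2) * (T ^ 2 * b ^ 2) :=
    le_mul_of_one_le_right (by positivity) hbT2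
  have e5 : 0 ≤ (p * a + q) ^ 2 := sq_nonneg _
  have e6 : 0 ≤ T ^ 4 * (p * a + q) ^ 2 := by positivity
  have e7 : 0 ≤ p ^ 2 * b ^ 2 := by positivity
  nlinarith

theorem SCH_zero (f : ℝ → ℝ) (hf : Continuous f) (h : Real.sign (f 0) ≠ Real.sign (f 1)) :
    ∃ t : ℝ, 0 ≤ t ∧ t ≤ 1 ∧ f t = 0 := by
  by_contra hcon
  push Not at hcon
  have h0 : f 0 ≠ 0 := hcon 0 le_rfl zero_le_one
  have h1 : f 1 ≠ 0 := hcon 1 zero_le_one le_rfl
  rcases lt_or_gt_of_ne h0 with a0 | a0 <;> rcases lt_or_gt_of_ne h1 with a1 | a1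
  · exact h (by rw [Real.sign_of_neg a0, Real.sign_of_neg a1])
  · have hi : (0 : ℝ) ∈ Set.Icc (f 0) (f 1) := ⟨a0.le, a1.le⟩
    obtain ⟨t, ht, ht'⟩ := intermediate_value_Icc (zero_le_one' ℝ) hf.continuousOn hi
    exact hcon t ht.1 ht.2 ht'
  · have hi : (0 : ℝ) ∈ Set.Icc (f 1) (f 0) := ⟨a1.le, a0.le⟩
    obtain ⟨t, ht, ht'⟩ := intermediate_value_Icc' (zero_le_one' ℝ) hf.continuousOn hi
    exact hcon t ht.1 ht.2 ht'
  · exact h (by rw [Real.sign_of_pos a0, Real.sign_of_pos a1])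

theorem SCH_seg (T : ℝ) (x y x' y' t : ℝ) (h : Bx T x y) (h' : Bx T x' y') (t0 : 0 ≤ t)
    (t1 : t ≤ 1) : Bx T (x + t * (x' - x)) (y + t * (y' - y)) := by
  obtain ⟨hx, hy1, hy2⟩ := h
  obtain ⟨ha, hb1, hb2⟩ := h'
  have h1 := abs_le.1 hx
  have h2 := abs_le.1 ha
  refine ⟨abs_le.2 ⟨?_, ?_⟩, ?_, ?_⟩
  · nlinarith
  · nlinarith
  · generalize 1 / T = r at hy1 hb1 ⊢
    nlinarith
  · nlinarith

theorem SCH : SCH_stmt := by
  intro T hT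
  refine ⟨(2 + 9 * T ^ 4) ^ 2 * T ^ 2, ?_⟩
  intro u v x y x' y' h h' hs
  let f : ℝ → ℝ := fun t => ip u v (x + t * (x' - x)) (y + t * (y' - y))
  have hf : Continuous f := by
    unfold f ip
    fun_prop
  have f0 : f 0 = ip u v x y := by
    simp [f]
  have f1 : f 1 = ip u v x' y' := by
    simp [f]
  obtain ⟨t, t0, t1, ht⟩ := SCH_zero f hf (by rw [f0, f1]; exact hs)
  have hB := SCH_seg T x y x' y' t h h' t0 t1
  set a := x + t * (x' - x) with ha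
  set b := y + t * (y' - y) with hb
  have hz : ip u v a b = 0 := ht
  have c1 := SCH_cmp T hT u x y a b h hB
  have c2 := SCH_cmp T hT v x y a b h hB
  have n1 := SCH_nonneg u x y
  have n2 := SCH_nonneg v x y
  have n3 := SCH_nonneg u a b
  have n4 := SCH_nonneg v a b
  have hid := SCH_id u v a b
  rw [hz] at hid
  have hbT : b ^ 2 ≤ T ^ 2 := by
    obtain ⟨_, hb1, hb2⟩ := hB
    have : 0 < 1 / T := by positivity
    have hb0 : 0 < b := lt_of_lt_of_le this hb1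
    nlinarith
  have hK : (0 : ℝ) ≤ 2 + 9 * T ^ 4 := by positivity
  calc ip u u x y * ip v v x y
      ≤ ((2 + 9 * T ^ 4) * ip u u a b) * ((2 + 9 * T ^ 4) * ip v v a b) :=
        mul_le_mul c1 c2 n2 (by positivity)
    _ = (2 + 9 * T ^ 4) ^ 2 * (ip u u a b * ip v v a b) := by ring
    _ = (2 + 9 * T ^ 4) ^ 2 * ((dt u v : ℝ) ^ 2 * b ^ 2) := by rw [hid]; ring
    _ ≤ (2 + 9 * T ^ 4) ^ 2 * ((dt u v : ℝ) ^ 2 * T ^ 2) := by
        apply mul_le_mul_of_nonneg_left _ (by positivity)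
        exact mul_le_mul_of_nonneg_left hbT (by positivity)
    _ = (2 + 9 * T ^ 4) ^ 2 * T ^ 2 * (dt u v : ℝ) ^ 2 := by ring

end SF
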